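import Mathlib

set_option autoImplicit false

namespace Pool.Agent.H.MP_38bec9_co

open Finset

theorem sum_choose_le (M D : ℕ) : ∑ k ∈ Iic D, M.choose k ≤ (M + 1) ^ D := by
  rw [add_pow, ← Nat.range_succ_eq_Iic]
  refine sum_le_sum fun k hk => ?_
  have h1 : 0 < D.choose k := Nat.choose_pos (by simpa [Nat.lt_succ_iff] using hk)
  calc M.choose k ≤ M ^ k := Nat.choose_le_pow M k
    _ ≤ M ^ k * 1 ^ (D - k) * D.choose k := by
      rw [one_pow, mul_one]; exact Nat.le_mul_of_pos_right _ h1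

/-- The number of sign patterns of a family of linear forms. -/
theorem signs {ι J : Type} [Fintype ι] [DecidableEq ι] [Fintype J]
    (l : ι → ((J → ℝ) →ₗ[ℝ] ℝ)) (𝒜 : Finset (Finset ι))
    (h : ∀ S ∈ 𝒜, ∃ x, ∀ i, i ∈ S ↔ 0 < l i x) :
    #𝒜 ≤ (Fintype.card ι + 1) ^ Fintype.card J := by
  classical
  have hv : 𝒜.vcDim ≤ Fintype.card J := by
    unfold vcDim
    refine Finset.sup_le fun s hs => ?_
    rw [mem_shatterer] at hs
    by_contra hlt
    have hdep : ¬ LinearIndependent ℝ (fun i : s => l i) := by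
      intro hli
      have := hli.fintype_card_le_finrank
      rw [Module.finrank_linearMap_self, Module.finrank_fintype_fun_eq_card,
        Fintype.card_coe] at this
      exact hlt this
    obtain ⟨g, hg, j, hj⟩ := Fintype.not_linearIndependent_iff.mp hdep
    have key : ∀ g : s → ℝ, ∑ i, g i • l i = 0 → ∀ j, ¬ 0 < g j := by
      intro g hg j hj
      obtain ⟨u, hu, hsu⟩ := hs (t := (univ.filter fun i : s => 0 < g i).map
        (Function.Embedding.subtype _)) (by
          intro a ha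
          obtain ⟨b, _, rfl⟩ := mem_map.mp ha
          exact b.2)
      obtain ⟨x, hx⟩ := h u hu
      have hi : ∀ i : s, 0 < l i x ↔ 0 < g i := by
        intro i
        rw [← hx]
        have : (i : ι) ∈ s ∩ u ↔ 0 < g i := by
          rw [hsu]; simp
        simpa using this
      have h0 : ∑ i, g i * l i x = 0 := by
        have := congrArg (fun f : (J → ℝ) →ₗ[ℝ] ℝ => f x) hg
        simpa using this
      have : 0 < ∑ i, g i * l i x := by
        refine sum_pos' (fun i _ => ?_) ⟨j, mem_univ _, mul_pos hj ((hi j).mpr hj)⟩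
        by_cases hgi : 0 < g i
        · exact (mul_pos hgi ((hi i).mpr hgi)).le
        · exact mul_nonneg_of_nonpos_of_nonpos (not_lt.mp hgi)
            (not_lt.mp fun h => hgi ((hi i).mp h))
      exact this.ne' h0
    rcases lt_or_gt_of_ne hj with hj | hj
    · refine key (fun i => - g i) ?_ j (by simpa using hj)
      have h1 : ∑ i : s, (- g i) • l i = - ∑ i : s, g i • l i := by
        rw [← sum_neg_distrib]
        exact sum_congr rfl fun i _ => LinearMap.ext fun x => by simp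
      have h2 : ∑ i : s, g i • l i = 0 := hg
      rw [h1, h2, neg_zero]
    · exact key g hg j hj
  calc #𝒜 ≤ #𝒜.shatterer := card_le_card_shatterer 𝒜
    _ ≤ ∑ k ∈ Iic 𝒜.vcDim, (Fintype.card ι).choose k := card_shatterer_le_sum_vcDim
    _ ≤ ∑ k ∈ Iic (Fintype.card J), (Fintype.card ι).choose k :=
      sum_le_sum_of_subset (Iic_subset_Iic.mpr hv)
    _ ≤ _ := sum_choose_le _ _

theorem ex_lev (x y : ℕ) : ∃ l : ℕ, x / 2 ^ l = y / 2 ^ l :=
  ⟨x + y, by
    rw [Nat.div_eq_of_lt, Nat.div_eq_of_lt]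
    · exact lt_of_le_of_lt (Nat.le_add_left _ _) Nat.lt_two_pow_self
    · exact lt_of_le_of_lt (Nat.le_add_right _ _) Nat.lt_two_pow_self⟩

/-- the level of the smallest dyadic interval containing `x` and `y` -/
def lev (x y : ℕ) : ℕ := Nat.find (ex_lev x y)

theorem lev_spec (x y : ℕ) : x / 2 ^ lev x y = y / 2 ^ lev x y := Nat.find_spec (ex_lev x y)

theorem lev_le {x y t : ℕ} (hx : x < 2 ^ t) (hy : y < 2 ^ t) : lev x y ≤ t :=
  Nat.find_min' _ (by rw [Nat.div_eq_of_lt hx, Nat.div_eq_of_lt hy])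

theorem lev_clash {x y x' y' : ℕ} (h : lev x y = lev x' y')
    (hp : x / 2 ^ lev x y = x' / 2 ^ lev x y) (h1 : x < x') (h2 : x < y') (h3 : y < x')
    (h4 : y < y') : False := by
  have s1 := lev_spec x y
  have s2 := lev_spec x' y'
  rw [← h] at s2
  rcases hl : lev x y with _ | k
  · rw [hl] at hp; simp at hp; omega
  · have m1 : ¬ x / 2 ^ k = y / 2 ^ k := Nat.find_min (ex_lev x y) (by
      show k < lev x y; omega)
    have m2 : ¬ x' / 2 ^ k = y' / 2 ^ k := Nat.find_min (ex_lev x' y') (by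
      show k < lev x' y'; omega)
    rw [hl, pow_succ] at s1 s2 hp
    simp only [← Nat.div_div_eq_div_mul] at s1 s2 hp
    have a1 := Nat.div_le_div_right (c := 2 ^ k) h1.le
    have a2 := Nat.div_le_div_right (c := 2 ^ k) h2.le
    have a3 := Nat.div_le_div_right (c := 2 ^ k) h3.le
    have a4 := Nat.div_le_div_right (c := 2 ^ k) h4.le
    omega

theorem pow_le_fact (n : ℕ) : n ^ n ≤ 3 ^ n * n.factorial := by
  have h1 := Real.pow_div_factorial_le_exp (n : ℝ) (Nat.cast_nonneg n) n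
  have h2 : Real.exp n ≤ 3 ^ n := by
    rw [← Real.exp_one_pow]
    exact pow_le_pow_left₀ (Real.exp_pos 1).le (Real.exp_one_lt_d9.le.trans (by norm_num)) n
  have h3 : (0 : ℝ) < n.factorial := by exact_mod_cast n.factorial_pos
  rw [div_le_iff₀ h3] at h1
  have : (n : ℝ) ^ n ≤ 3 ^ n * n.factorial := h1.trans (mul_le_mul_of_nonneg_right h2 h3.le)
  exact_mod_cast this

theorem big (K k : ℕ) : ∃ s : ℕ, K * (s + 6) ^ k < 2 ^ s := by
  have h := tendsto_pow_const_div_const_pow_of_one_lt k (show (1 : ℝ) < 2 by norm_num)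
  have hpos : (0 : ℝ) < 1 / (64 * (K + 1)) := by positivity
  obtain ⟨u, hu, h6⟩ := ((h.eventually (gt_mem_nhds hpos)).and
    (Filter.eventually_ge_atTop 6)).exists
  obtain ⟨s, rfl⟩ : ∃ s, u = s + 6 := ⟨u - 6, by omega⟩
  refine ⟨s, ?_⟩
  rw [div_lt_div_iff₀ (by positivity) (by positivity), pow_add] at hu
  have : (K : ℝ) * ((s + 6 : ℕ) : ℝ) ^ k < 2 ^ s := by
    have h0 : (0 : ℝ) ≤ ((s + 6 : ℕ) : ℝ) ^ k := by positivity
    nlinarith
  exact_mod_cast this

theorem numeric (m : ℕ) : ∃ s : ℕ, (m * (26 * 2 ^ s * (26 * 2 ^ s)) + 1) ^ (26 * 2 ^ s * 3) *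
    ((s + 6) ^ (m * 338)) ^ 2 ^ s < (2 ^ s).factorial ^ 169 := by
  obtain ⟨s, hs⟩ := big (3 ^ 169 * (676 * m + 1) ^ 78) (m * 338)
  refine ⟨s, ?_⟩
  have hn : 0 < 2 ^ s := by positivity
  generalize 2 ^ s = n at hs hn ⊢
  generalize (s + 6) ^ (m * 338) = L at hs ⊢
  by_contra hle
  push Not at hle
  have h1 : (n ^ 169) ^ n ≤ (3 ^ 169 * ((m * (26 * n * (26 * n)) + 1) ^ 78 * L)) ^ n := by
    calc (n ^ 169) ^ n = (n ^ n) ^ 169 := by rw [← pow_mul, ← pow_mul, mul_comm]
      _ ≤ (3 ^ n * n.factorial) ^ 169 := Nat.pow_le_pow_left (pow_le_fact n) _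
      _ = (3 ^ 169) ^ n * n.factorial ^ 169 := by
        rw [mul_pow, ← pow_mul, ← pow_mul, mul_comm n 169]
      _ ≤ (3 ^ 169) ^ n * ((m * (26 * n * (26 * n)) + 1) ^ (26 * n * 3) * L ^ n) :=
        Nat.mul_le_mul_left _ hle
      _ = _ := by
        rw [mul_pow, mul_pow, ← pow_mul _ 78 n, show 26 * n * 3 = 78 * n by ring]
  have h2 := (Nat.pow_le_pow_iff_left hn.ne').mp h1
  have h3 : m * (26 * n * (26 * n)) + 1 ≤ (676 * m + 1) * n ^ 2 := by nlinarith
  have h4 : n ^ 169 ≤ 3 ^ 169 * (((676 * m + 1) * n ^ 2) ^ 78 * L) :=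
    h2.trans (Nat.mul_le_mul_left _ (Nat.mul_le_mul_right _ (Nat.pow_le_pow_left h3 _)))
  generalize 3 ^ 169 = A at hs h4
  rw [mul_pow, ← pow_mul] at h4
  generalize (676 * m + 1) ^ 78 = B at hs h4
  have h5 : n ^ 156 * n ≤ n ^ 156 * (A * B * L) := by
    calc n ^ 156 * n = n ^ 157 := by ring
      _ ≤ n ^ 169 := Nat.pow_le_pow_right hn (by norm_num)
      _ ≤ _ := h4
      _ = _ := by ring
  exact absurd (Nat.le_of_mul_le_mul_left h5 (by positivity)) (not_le.mpr hs)

end Pool.Agent.H.MP_38bec9_co
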